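import Mathlib

namespace Pool.Agent.Results.MP_3c3b39_pr.StrictBKR

variable {S : Type} {d : ℕ}

/-- The cylinder `[x]_K`: all points of `S^d` that agree with `x` on the coordinates in `K`. -/
def cyl (x : Fin d → S) (K : Set (Fin d)) : Set (Fin d → S) :=
  {y | ∀ i ∈ K, y i = x i}

/-- The binary BKR product. -/
def box (A B : Set (Fin d → S)) : Set (Fin d → S) :=
  {x | ∃ K L : Set (Fin d), Disjoint K L ∧ cyl x K ⊆ A ∧ cyl x L ⊆ B}

/-- The simultaneous `r`-fold BKR product. -/
def simBox {r : ℕ} (A : Fin r → Set (Fin d → S)) : Set (Fin d → S) :=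
  {x | ∃ K : Fin r → Set (Fin d),
    (∀ i j, i ≠ j → Disjoint (K i) (K j)) ∧ ∀ i, cyl x (K i) ⊆ A i}

/-- `BinProd A a b P` says that `P` is the value of some full parenthesisation of the word
`A_a A_{a+1} ... A_{b-1}` (factors kept in this order), every product being the binary one. -/
inductive BinProd {r : ℕ} (A : Fin r → Set (Fin d → S)) : ℕ → ℕ → Set (Fin d → S) → Prop
  | leaf (i : Fin r) : BinProd A (i : ℕ) ((i : ℕ) + 1) (A i)
  | node {a b c : ℕ} {P Q : Set (Fin d → S)} :
      BinProd A a b P → BinProd A b c Q → BinProd A a c (box P Q)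

/-- The intersection `I(A_0, ..., A_{r-1})` of all binary-associated products of the whole
word `A_0 A_1 ... A_{r-1}`. -/
def interBox {r : ℕ} (A : Fin r → Set (Fin d → S)) : Set (Fin d → S) :=
  {x | ∀ P, BinProd A 0 r P → x ∈ P}

theorem BinProd.lt {r : ℕ} {A : Fin r → Set (Fin d → S)} {a b : ℕ} {P : Set (Fin d → S)}
    (h : BinProd A a b P) : a < b := by
  induction h with
  | leaf i => omega
  | node _ _ h1 h2 => omega

theorem BinProd.le {r : ℕ} {A : Fin r → Set (Fin d → S)} {a b : ℕ} {P : Set (Fin d → S)}
    (h : BinProd A a b P) : b ≤ r := by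
  induction h with
  | leaf i => omega
  | node _ _ h1 h2 => omega

theorem BinProd.single {r : ℕ} {A : Fin r → Set (Fin d → S)} {a b : ℕ} {P : Set (Fin d → S)}
    (h : BinProd A a b P) : b = a + 1 → ∃ i : Fin r, (i : ℕ) = a ∧ P = A i := by
  induction h with
  | leaf i => intro _; exact ⟨i, rfl, rfl⟩
  | node h1 h2 _ _ =>
    intro h
    have := h1.lt
    have := h2.lt
    omega

/-- The general inclusion. -/
theorem simBox_subset {r : ℕ} (A : Fin r → Set (Fin d → S)) : simBox A ⊆ interBox A := by
  rintro x ⟨K, hd, hK⟩ P hP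
  have key : ∀ (a b : ℕ) (P : Set (Fin d → S)), BinProd A a b P →
      cyl x {j | ∃ i : Fin r, a ≤ (i : ℕ) ∧ (i : ℕ) < b ∧ j ∈ K i} ⊆ P := by
    intro a b P h
    induction h with
    | leaf i =>
      intro y hy
      apply hK i
      intro j hj
      exact hy j ⟨i, le_refl _, by omega, hj⟩
    | @node a b c P Q h1 h2 ih1 ih2 =>
      intro y hy
      refine ⟨{j | ∃ i : Fin r, a ≤ (i : ℕ) ∧ (i : ℕ) < b ∧ j ∈ K i},
        {j | ∃ i : Fin r, b ≤ (i : ℕ) ∧ (i : ℕ) < c ∧ j ∈ K i}, ?_, ?_, ?_⟩
      · rw [Set.disjoint_left]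
        rintro j ⟨i, hi1, hi2, hi3⟩ ⟨i', hi1', hi2', hi3'⟩
        have hne : i ≠ i' := by
          rintro rfl
          omega
        exact (Set.disjoint_left.mp (hd i i' hne)) hi3 hi3'
      · intro z hz
        apply ih1
        rintro j ⟨i, hi1, hi2, hi3⟩
        rw [hz j ⟨i, hi1, hi2, hi3⟩]
        exact hy j ⟨i, hi1, by have := h2.lt; omega, hi3⟩
      · intro z hz
        apply ih2
        rintro j ⟨i, hi1, hi2, hi3⟩
        rw [hz j ⟨i, hi1, hi2, hi3⟩]
        exact hy j ⟨i, by have := h1.lt; omega, hi2, hi3⟩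
  apply key 0 r P hP
  intro j _
  rfl

/-- `Z T` is the set of points vanishing on `T`. -/
def Z {s : ℕ} (T : Set ℕ) : Set (Fin (s + 2) → Bool) :=
  {y | ∀ i : Fin (s + 2), (i : ℕ) ∈ T → y i = false}

theorem Z_mono {s : ℕ} {T U : Set ℕ} (h : T ⊆ U) : (Z U : Set (Fin (s + 2) → Bool)) ⊆ Z T :=
  fun _ hy i hi => hy i (h hi)

/-- The example: `A_0 = A_2 = {y_0 = 0 or y_1 = 0}`, `A_1 = {y_0 = 1 or y_1 = 0}` and
`A_j = {y_{j-1} = 0}` for `j ≥ 3`. -/
def ex (s : ℕ) (j : Fin (s + 3)) : Set (Fin (s + 2) → Bool) :=
  if (j : ℕ) = 0 ∨ (j : ℕ) = 2 then {y | y 0 = false ∨ y 1 = false}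
  else if (j : ℕ) = 1 then {y | y 0 = true ∨ y 1 = false}
  else {y | ∀ i : Fin (s + 2), (i : ℕ) + 1 = (j : ℕ) → y i = false}

/-- coordinates attached to the factors with index in `[a, b)`, `a ≥ 3`. -/
def E (a b : ℕ) : Set ℕ := {i | a ≤ i + 1 ∧ i + 1 < b}

theorem box_Z {s : ℕ} {P Q : Set (Fin (s + 2) → Bool)} {T U V : Set ℕ} (hTU : Disjoint T U)
    (hT : T ⊆ V) (hU : U ⊆ V)
    (hP : Z T ⊆ P) (hQ : Z U ⊆ Q) : Z V ⊆ box P Q := by
  intro y hy
  refine ⟨{i | (i : ℕ) ∈ T}, {i | (i : ℕ) ∈ U}, ?_, ?_, ?_⟩
  · rw [Set.disjoint_left]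
    intro i hi hi'
    exact (Set.disjoint_left.mp hTU) hi hi'
  · intro z hz
    apply hP
    intro i hi
    rw [hz i hi]
    exact hy i (hT hi)
  · intro z hz
    apply hQ
    intro i hi
    rw [hz i hi]
    exact hy i (hU hi)

theorem ex_zero {s : ℕ} (j : Fin (s + 3)) (h : (j : ℕ) = 0) :
    ex s j = {y | y 0 = false ∨ y 1 = false} := by
  unfold ex; rw [if_pos (Or.inl h)]

theorem ex_two {s : ℕ} (j : Fin (s + 3)) (h : (j : ℕ) = 2) :
    ex s j = {y | y 0 = false ∨ y 1 = false} := by
  unfold ex; rw [if_pos (Or.inr h)]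

theorem ex_one {s : ℕ} (j : Fin (s + 3)) (h : (j : ℕ) = 1) :
    ex s j = {y | y 0 = true ∨ y 1 = false} := by
  unfold ex; rw [if_neg (by omega), if_pos h]

theorem ex_big {s : ℕ} (j : Fin (s + 3)) (h : 3 ≤ (j : ℕ)) :
    ex s j = {y | ∀ i : Fin (s + 2), (i : ℕ) + 1 = (j : ℕ) → y i = false} := by
  unfold ex; rw [if_neg (by omega), if_neg (by omega)]

theorem E_disj {a b c : ℕ} : Disjoint (E a b) (E b c) := by
  rw [Set.disjoint_left]
  intro i hi hi'
  simp only [E, Set.mem_ofPred_eq] at hi hi'
  omega

theorem key {s : ℕ} : ∀ (a b : ℕ) (P : Set (Fin (s + 2) → Bool)), BinProd (ex s) a b P →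
    (3 ≤ a → Z (E a b) ⊆ P) ∧
    (a = 2 → Z ({0} ∪ E 3 b) ⊆ P ∧ Z ({1} ∪ E 3 b) ⊆ P) ∧
    (a = 1 → 3 ≤ b → Z ({1} ∪ E 3 b) ⊆ P) ∧
    (a = 0 → b = 2 → Z {1} ⊆ P) ∧
    (a = 0 → 3 ≤ b → Z ({0, 1} ∪ E 3 b) ⊆ P) := by
  intro a b P h
  induction h with
  | leaf j =>
    refine ⟨?_, ?_, ?_, ?_, ?_⟩
    · intro h
      rw [ex_big j h]
      intro y hy i hi
      apply hy i
      simp only [E, Set.mem_ofPred_eq]
      omega
    · intro h
      rw [ex_two j h]
      constructor
      · intro y hy
        left
        apply hy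
        simp
      · intro y hy
        right
        apply hy
        simp
    · intro h h'
      omega
    · intro h h'
      omega
    · intro h h'
      omega
  | @node a m c P Q h1 h2 ih1 ih2 =>
    have l1 := h1.lt
    have l2 := h2.lt
    obtain ⟨p1, p2, p3, p4, p5⟩ := ih1
    obtain ⟨q1, q2, q3, q4, q5⟩ := ih2
    refine ⟨?_, ?_, ?_, ?_, ?_⟩
    · intro h
      refine box_Z (T := E a m) (U := E m c) E_disj ?_ ?_ (p1 h) (q1 (by omega))
      · intro i hi
        simp only [E, Set.mem_ofPred_eq] at hi ⊢
        omega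
      · intro i hi
        simp only [E, Set.mem_ofPred_eq] at hi ⊢
        omega
    · intro h
      obtain ⟨pa, pb⟩ := p2 h
      have q := q1 (by omega)
      constructor
      · refine box_Z (T := {0} ∪ E 3 m) (U := E m c) ?_ ?_ ?_ pa q
        · rw [Set.disjoint_left]
          intro i hi hi'
          simp only [E, Set.mem_ofPred_eq, Set.mem_union, Set.mem_singleton_iff] at hi hi'
          omega
        · intro i hi
          simp only [E, Set.mem_ofPred_eq, Set.mem_union, Set.mem_singleton_iff] at hi ⊢
          omega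
        · intro i hi
          simp only [E, Set.mem_ofPred_eq, Set.mem_union, Set.mem_singleton_iff] at hi ⊢
          omega
      · refine box_Z (T := {1} ∪ E 3 m) (U := E m c) ?_ ?_ ?_ pb q
        · rw [Set.disjoint_left]
          intro i hi hi'
          simp only [E, Set.mem_ofPred_eq, Set.mem_union, Set.mem_singleton_iff] at hi hi'
          omega
        · intro i hi
          simp only [E, Set.mem_ofPred_eq, Set.mem_union, Set.mem_singleton_iff] at hi ⊢
          omega
        · intro i hi
          simp only [E, Set.mem_ofPred_eq, Set.mem_union, Set.mem_singleton_iff] at hi ⊢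
          omega
    · intro h h'
      rcases Nat.lt_or_ge m 3 with hm | hm
      · have hm2 : m = 2 := by omega
        obtain ⟨j, hj, rfl⟩ := h1.single (by omega)
        rw [ex_one j (by omega)]
        obtain ⟨qa, qb⟩ := q2 hm2
        intro y hy
        cases hy0 : y 0
        · refine ⟨{1}, {i | (i : ℕ) ∈ ({0} ∪ E 3 c : Set ℕ)}, ?_, ?_, ?_⟩
          · rw [Set.disjoint_left]
            intro i hi hi'
            simp only [E, Set.mem_ofPred_eq, Set.mem_union, Set.mem_singleton_iff] at hi hi'
            subst hi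
            simp at hi'
          · intro z hz
            right
            rw [hz 1 rfl]
            apply hy
            simp
          · intro z hz
            apply qa
            intro i hi
            rw [hz i hi]
            rcases hi with hi | hi
            · have : i = 0 := Fin.ext hi
              rw [this, hy0]
            · exact hy i (Or.inr hi)
        · refine ⟨{0}, {i | (i : ℕ) ∈ ({1} ∪ E 3 c : Set ℕ)}, ?_, ?_, ?_⟩
          · rw [Set.disjoint_left]
            intro i hi hi'
            simp only [E, Set.mem_ofPred_eq, Set.mem_union, Set.mem_singleton_iff] at hi hi'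
            subst hi
            simp at hi'
          · intro z hz
            left
            rw [hz 0 rfl, hy0]
          · intro z hz
            apply qb
            intro i hi
            rw [hz i hi]
            exact hy i hi
      · refine box_Z (T := {1} ∪ E 3 m) (U := E m c) ?_ ?_ ?_ (p3 h hm) (q1 hm)
        · rw [Set.disjoint_left]
          intro i hi hi'
          simp only [E, Set.mem_ofPred_eq, Set.mem_union, Set.mem_singleton_iff] at hi hi'
          omega
        · intro i hi
          simp only [E, Set.mem_ofPred_eq, Set.mem_union, Set.mem_singleton_iff] at hi ⊢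
          omega
        · intro i hi
          simp only [E, Set.mem_ofPred_eq, Set.mem_union, Set.mem_singleton_iff] at hi ⊢
          omega
    · intro h h'
      obtain ⟨j, hj, rfl⟩ := h1.single (by omega)
      obtain ⟨k, hk, rfl⟩ := h2.single (by omega)
      rw [ex_zero j (by omega), ex_one k (by omega)]
      intro y hy
      cases hy0 : y 0
      · refine ⟨{0}, {1}, ?_, ?_, ?_⟩
        · rw [Set.disjoint_singleton]
          intro h
          have := congrArg Fin.val h
          simp at this
        · intro z hz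
          left
          rw [hz 0 rfl, hy0]
        · intro z hz
          right
          rw [hz 1 rfl]
          apply hy
          simp
      · refine ⟨{1}, {0}, ?_, ?_, ?_⟩
        · rw [Set.disjoint_singleton]
          intro h
          have := congrArg Fin.val h
          simp at this
        · intro z hz
          right
          rw [hz 1 rfl]
          apply hy
          simp
        · intro z hz
          left
          rw [hz 0 rfl, hy0]
    · intro h h'
      rcases Nat.lt_or_ge m 3 with hm | hm
      · have hm2 : m = 1 ∨ m = 2 := by omega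
        rcases hm2 with hm2 | hm2
        · obtain ⟨j, hj, rfl⟩ := h1.single (by omega)
          have hA : (Z {0} : Set (Fin (s + 2) → Bool)) ⊆ ex s j := by
            rw [ex_zero j (by omega)]
            intro y hy
            left
            apply hy
            simp
          refine box_Z (T := {0}) (U := {1} ∪ E 3 c) ?_ ?_ ?_ hA (q3 hm2 (by omega))
          · rw [Set.disjoint_left]
            intro i hi hi'
            simp only [E, Set.mem_ofPred_eq, Set.mem_union, Set.mem_singleton_iff] at hi hi'
            omega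
          · intro i hi
            simp only [E, Set.mem_ofPred_eq, Set.mem_union, Set.mem_singleton_iff,
              Set.mem_insert_iff] at hi ⊢
            omega
          · intro i hi
            simp only [E, Set.mem_ofPred_eq, Set.mem_union, Set.mem_singleton_iff,
              Set.mem_insert_iff] at hi ⊢
            omega
        · obtain ⟨qa, qb⟩ := q2 hm2
          refine box_Z (T := {1}) (U := {0} ∪ E 3 c) ?_ ?_ ?_ (p4 h hm2) qa
          · rw [Set.disjoint_left]
            intro i hi hi'
            simp only [E, Set.mem_ofPred_eq, Set.mem_union, Set.mem_singleton_iff] at hi hi'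
            omega
          · intro i hi
            simp only [E, Set.mem_ofPred_eq, Set.mem_union, Set.mem_singleton_iff,
              Set.mem_insert_iff] at hi ⊢
            omega
          · intro i hi
            simp only [E, Set.mem_ofPred_eq, Set.mem_union, Set.mem_singleton_iff,
              Set.mem_insert_iff] at hi ⊢
            omega
      · refine box_Z (T := {0, 1} ∪ E 3 m) (U := E m c) ?_ ?_ ?_ (p5 h hm) (q1 hm)
        · rw [Set.disjoint_left]
          intro i hi hi'
          simp only [E, Set.mem_ofPred_eq, Set.mem_union, Set.mem_singleton_iff,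
              Set.mem_insert_iff] at hi hi'
          omega
        · intro i hi
          simp only [E, Set.mem_ofPred_eq, Set.mem_union, Set.mem_singleton_iff,
              Set.mem_insert_iff] at hi ⊢
          omega
        · intro i hi
          simp only [E, Set.mem_ofPred_eq, Set.mem_union, Set.mem_singleton_iff,
              Set.mem_insert_iff] at hi ⊢
          omega

theorem not_mem_sim {s : ℕ} : (fun _ => false) ∉ simBox (ex s) := by
  rintro ⟨K, hd, hK⟩
  have h01 : (0 : Fin (s + 2)) ≠ 1 := by
    intro h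
    have := congrArg Fin.val h
    simp at this
  -- the three first certificates
  have c0 : ∀ j : Fin (s + 3), ((j : ℕ) = 0 ∨ (j : ℕ) = 2) → (0 : Fin (s + 2)) ∈ K j ∨ 1 ∈ K j := by
    intro j hj
    by_contra hcon
    rw [not_or] at hcon
    have hmem : (fun i : Fin (s + 2) => decide (i = 0 ∨ i = 1)) ∈
        cyl (fun _ : Fin (s + 2) => false) (K j) := by
      intro i hi
      simp only [decide_eq_false_iff_not, not_or]
      constructor
      · rintro rfl; exact hcon.1 hi
      · rintro rfl; exact hcon.2 hi
    have h2 := hK j hmem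
    have : ex s j = {y | y 0 = false ∨ y 1 = false} := by
      rcases hj with hj | hj
      · exact ex_zero j hj
      · exact ex_two j hj
    rw [this] at h2
    simp at h2
  have c1 : (1 : Fin (s + 2)) ∈ K ⟨1, by omega⟩ := by
    by_contra hcon
    have hmem : (fun i : Fin (s + 2) => decide (i = 1)) ∈
        cyl (fun _ : Fin (s + 2) => false) (K ⟨1, by omega⟩) := by
      intro i hi
      simp only [decide_eq_false_iff_not]
      rintro rfl; exact hcon hi
    have h2 := hK ⟨1, by omega⟩ hmem
    rw [ex_one _ rfl] at h2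
    simp at h2
  have d01 := hd ⟨0, by omega⟩ ⟨1, by omega⟩ (by simp)
  have d21 := hd ⟨2, by omega⟩ ⟨1, by omega⟩ (by simp)
  have d02 := hd ⟨0, by omega⟩ ⟨2, by omega⟩ (by simp)
  rw [Set.disjoint_left] at d01 d21 d02
  have e0 : (0 : Fin (s + 2)) ∈ K ⟨0, by omega⟩ := by
    rcases c0 ⟨0, by omega⟩ (Or.inl rfl) with h | h
    · exact h
    · exact absurd c1 (d01 h)
  have e2 : (0 : Fin (s + 2)) ∈ K ⟨2, by omega⟩ := by
    rcases c0 ⟨2, by omega⟩ (Or.inr rfl) with h | h
    · exact h
    · exact absurd c1 (d21 h)
  exact d02 e0 e2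

/-- For every `r ≥ 3` there are an integer `d ≥ 1` and sets `A_0, ..., A_{r-1}` of points of
`{0,1}^d`, none of them the whole cube, whose simultaneous BKR product is a proper subset of the
intersection of all their binary-associated products. -/
theorem result : ∀ r : ℕ, 3 ≤ r → ∃ d : ℕ, 1 ≤ d ∧ ∃ A : Fin r → Set (Fin d → Bool),
    (∀ i, A i ≠ Set.univ) ∧ simBox A ⊂ interBox A := by
  intro r hr
  obtain ⟨s, rfl⟩ : ∃ s, r = s + 3 := ⟨r - 3, by omega⟩
  refine ⟨s + 2, by omega, ex s, ?_, ?_⟩
  · intro j hj
    have h01 : (1 : Fin (s + 2)) ≠ 0 := by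
      intro h
      have := congrArg Fin.val h
      simp at this
    rcases Nat.lt_or_ge (j : ℕ) 3 with h | h
    · have h3 : (j : ℕ) = 0 ∨ (j : ℕ) = 2 ∨ (j : ℕ) = 1 := by omega
      rcases h3 with h | h | h
      · rw [ex_zero j h] at hj
        have : (fun _ => true : Fin (s + 2) → Bool) ∈ {y : Fin (s + 2) → Bool | y 0 = false ∨ y 1 = false} := by
          rw [hj]; trivial
        simp at this
      · rw [ex_two j h] at hj
        have : (fun _ => true : Fin (s + 2) → Bool) ∈ {y : Fin (s + 2) → Bool | y 0 = false ∨ y 1 = false} := by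
          rw [hj]; trivial
        simp at this
      · rw [ex_one j h] at hj
        have : (fun i => decide (i = 1) : Fin (s + 2) → Bool) ∈ {y : Fin (s + 2) → Bool | y 0 = true ∨ y 1 = false} := by
          rw [hj]; trivial
        simp at this
    · rw [ex_big j h] at hj
      have h2 : (fun _ => true : Fin (s + 2) → Bool) ∈ {y : Fin (s + 2) → Bool | ∀ i : Fin (s + 2), (i : ℕ) + 1 = (j : ℕ) → y i = false} := by
        rw [hj]; trivial
      have h3 := h2 ⟨(j : ℕ) - 1, by omega⟩ (by simp; omega)
      simp at h3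
  · refine (Set.ssubset_iff_of_subset (simBox_subset _)).mpr ⟨fun _ => false, ?_, not_mem_sim⟩
    intro P hP
    apply (key 0 (s + 3) P hP).2.2.2.2 rfl (by omega)
    intro i _
    rfl

end Pool.Agent.Results.MP_3c3b39_pr.StrictBKR
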